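import Pool.Agent.H29.SPL.SlowDecayProof

open Filter Topology Finset PowerSeries
open Pool.Agent.H66.L1

namespace Pool.Agent.Results.MP_7f3d09_an.SlowDecay

/-- There are a `3 × 1` polynomial `H`, a `3 × 1` polynomial `U` whose last entry is a nonzero
constant, and `V = 1`, such that the minimum of `‖H - U Q V‖₁` over `Q ∈ ℓ₁` is attained, but no
optimal closed-loop map decays exponentially. -/
theorem result :
    ∃ (H : MatSeq 3 1) (U : MatSeq 3 1) (V : MatSeq 1 1),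
      IsL1 H ∧ IsL1 U ∧ IsL1 V ∧ IsRational H ∧ IsRational U ∧ IsRational V ∧
      (∃ Q, IsOptimal H U V Q) ∧
      (∀ Q, IsOptimal H U V Q → ¬ DecaysExponentially (H - U * Q * V)) ∧
      (∀ i j, ∃ P : Polynomial ℝ, H i j = (P : ℝ⟦X⟧)) ∧
      (∀ i j, ∃ P : Polynomial ℝ, U i j = (P : ℝ⟦X⟧)) ∧
      (∃ c : ℝ, c ≠ 0 ∧ U 2 0 = C c) ∧ V = 1 :=
  result_proof

end Pool.Agent.Results.MP_7f3d09_an.SlowDecay
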